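import Pool.Agent.Lib.MP_640417_ag.Two.Two
import Pool.Agent.Lib.MP_640417_ag.Four.IsoZ

/-!
# Two elements decide about the hypotheses of the local-global principle
-/

set_option autoImplicit false

namespace Pool.Agent.Lib.MP_640417_ag.Two

open Module Polynomial Pool.Agent.Lib.MP_640417_ag.Frob Pool.Agent.Lib.MP_640417_ag.Four

/-- If one element has an irreducible characteristic polynomial, another one a separable one whose
irreducible factors have degrees with greatest common divisor one, and no quotient of two eigenvalues of one of them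
is a root of unity, the representation is semisimple and only scalars commute with open subgroups. -/
theorem semisimple_scalar {F : Type} [Field F] [CharZero F] [TopologicalSpace F] {V : Type}
    [AddCommGroup V] [Module F V] [FiniteDimensional F V] {Γ : Type} [Group Γ]
    [TopologicalSpace Γ] [IsTopologicalGroup Γ] [CompactSpace Γ] (ρ : H1Rep Γ F V) (g g' : Γ)
    (hirr : Irreducible (ρ.T g).charpoly) (hq : NoQuot (ρ.T g).charpoly)
    (hsep' : (ρ.T g').charpoly.Separable) (hq' : NoQuot (ρ.T g').charpoly)
    (hgcd : ∀ d : ℕ, (∀ Q : F[X], Irreducible Q → Q ∣ (ρ.T g').charpoly → d ∣ Q.natDegree) →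
      d = 1) : Semisimple ρ ∧ ScalarCommutant ρ := by
  refine ⟨fun W hW => ?_, ?_⟩
  · have h1 := (two_elements ρ.T g g' hirr hq hsep' hq' hgcd ⊤).1 W fun γ _ w hw => hW γ w hw
    rcases h1 with rfl | rfl
    · exact ⟨⊤, fun γ y _ => Submodule.mem_top, isCompl_bot_top⟩
    · exact ⟨⊥, fun γ y hy => by
        rw [Submodule.mem_bot] at hy
        rw [hy, map_zero]
        exact Submodule.zero_mem _, isCompl_top_bot⟩
  · rintro c ⟨U, hU⟩
    have : U.toSubgroup.FiniteIndex := Subgroup.finiteIndex_of_finite_quotient
    exact (two_elements ρ.T g g' hirr hq hsep' hq' hgcd U.toSubgroup).2 c hU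

end Pool.Agent.Lib.MP_640417_ag.Two
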