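import Mathlib

/-!
# Two elements decide: irreducibility and the commutant of all subgroups of finite index

Let `T` be a representation of a group `Γ` over a field of characteristic zero. If one element has an
irreducible characteristic polynomial, another one has a separable characteristic polynomial whose irreducible
factors have degrees without common factor, and for both no quotient of two different eigenvalues is a
root of unity, then every subgroup of finite index acts irreducibly and only scalars commute with it.
-/

set_option autoImplicit false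

namespace Pool.Agent.Lib.MP_640417_ag.Two

open Module Polynomial TensorProduct

variable {F : Type} [Field F]

/-- No quotient of two different roots is a root of unity. -/
def NoQuot (P : F[X]) : Prop :=
  ∀ a b : AlgebraicClosure F, aeval a P = 0 → aeval b P = 0 → ∀ N : ℕ, 0 < N → a ^ N = b ^ N → a = b

variable {V : Type} [AddCommGroup V] [Module F V] [FiniteDimensional F V]

theorem baseChange_zero {K : Type} [Field K] [Algebra F K] {x : Module.End F V}
    (h : x.baseChange K = 0) : x = 0 := by
  let b := Module.finBasis F V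
  have h1 := LinearMap.toMatrix_baseChange K x b b
  rw [h, map_zero] at h1
  have h2 : LinearMap.toMatrix b b x = 0 := by
    ext i j
    have h3 := congrFun (congrFun h1 i) j
    rw [Matrix.zero_apply, Matrix.map_apply] at h3
    rw [Matrix.zero_apply]
    exact (map_eq_zero (algebraMap F K)).mp h3.symm
  exact (LinearEquiv.map_eq_zero_iff _).mp h2

/-- a separable element is a polynomial in its powers, over the algebraic closure -/
theorem poly_of_pow (t : Module.End F V) (hsep : t.charpoly.Separable) (hq : NoQuot t.charpoly)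
    (N : ℕ) (hN : 0 < N) : ∃ q : (AlgebraicClosure F)[X],
      t.baseChange (AlgebraicClosure F) = aeval (t.baseChange (AlgebraicClosure F) ^ N) q := by
  classical
  let K := AlgebraicClosure F
  let tK : Module.End K (K ⊗[F] V) := t.baseChange K
  let χ : K[X] := t.charpoly.map (algebraMap F K)
  have hχ : tK.charpoly = χ := LinearMap.charpoly_baseChange ..
  have hsepK : χ.Separable := hsep.map
  have hmonic : χ.Monic := (LinearMap.charpoly_monic t).map _
  let S : Finset K := χ.roots.toFinset
  have hS : ∀ a ∈ S, aeval a t.charpoly = 0 := by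
    intro a ha
    have h1 := (mem_roots hmonic.ne_zero).mp (Multiset.mem_toFinset.mp ha)
    rw [IsRoot.def, eval_map] at h1
    rw [aeval_def]
    exact h1
  let q : K[X] := Lagrange.interpolate S (fun a => a ^ N) (fun a => a)
  have hinj : Set.InjOn (fun a : K => a ^ N) S := by
    intro a ha b hb hab
    exact hq a b (hS a ha) (hS b hb) N hN hab
  have hr : ∀ a ∈ S, (q.comp (X ^ N) - X).eval a = 0 := by
    intro a ha
    rw [eval_sub, eval_comp, eval_pow, eval_X]
    have h1 := Lagrange.eval_interpolate_at_node (fun a : K => a) hinj ha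
    rw [h1, sub_self]
  have hdvd : χ ∣ q.comp (X ^ N) - X := by
    have hsplit : χ.roots.card = χ.natDegree := by
      exact (IsAlgClosed.splits χ).natDegree_eq_card_roots.symm
    have h1 : χ = ∏ a ∈ S, (X - C a) := by
      have h2 := (IsAlgClosed.splits χ).eq_prod_roots_of_monic hmonic
      conv_lhs => rw [h2]
      rw [Finset.prod_eq_multiset_prod]
      congr 2
      show χ.roots = χ.roots.toFinset.val
      rw [Multiset.toFinset_val, Multiset.dedup_eq_self.mpr (nodup_roots hsepK)]
    rw [h1]
    refine Finset.prod_dvd_of_coprime ?_ fun a ha => dvd_iff_isRoot.mpr (hr a ha)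
    intro a _ b _ hab
    exact isCoprime_X_sub_C_of_isUnit_sub (sub_ne_zero.mpr hab).isUnit
  refine ⟨q, ?_⟩
  obtain ⟨p, hp⟩ := hdvd
  have h2 : aeval tK (q.comp (X ^ N) - X) = 0 := by
    rw [hp, map_mul, ← hχ, LinearMap.aeval_self_charpoly, zero_mul]
  rw [map_sub, aeval_comp, map_pow, aeval_X, sub_eq_zero] at h2
  exact h2.symm

/-- what commutes with a power commutes with the element -/
theorem comm_of_pow (t : Module.End F V) (hsep : t.charpoly.Separable) (hq : NoQuot t.charpoly)
    (N : ℕ) (hN : 0 < N) (c : Module.End F V) (hc : c * t ^ N = t ^ N * c) : c * t = t * c := by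
  obtain ⟨q, hq⟩ := poly_of_pow t hsep hq N hN
  let K := AlgebraicClosure F
  have h3 : ∀ x y : Module.End F V, (x * y).baseChange K = x.baseChange K * y.baseChange K :=
    fun x y => map_mul (Module.End.baseChangeHom F K V) x y
  have h4 : (t ^ N).baseChange K = t.baseChange K ^ N :=
    map_pow (Module.End.baseChangeHom F K V) t N
  have h1 : Commute (c.baseChange K) (t.baseChange K ^ N) := by
    have h2 : (c * t ^ N).baseChange K = (t ^ N * c).baseChange K := by rw [hc]
    rw [h3, h3, h4] at h2
    exact h2
  have h2 : Commute (c.baseChange K) (t.baseChange K) := by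
    rw [hq]
    exact Algebra.commute_of_mem_adjoin_singleton_of_commute
      (Polynomial.aeval_mem_adjoin_singleton _ _) h1
  have h5 : (c * t - t * c).baseChange K = 0 := by
    rw [LinearMap.baseChange_sub, h3, h3]
    exact sub_eq_zero.mpr h2
  exact sub_eq_zero.mp (baseChange_zero h5)

/-- a subspace stable under a power is stable under the element -/
theorem stable_of_pow (t : Module.End F V) (hsep : t.charpoly.Separable) (hq : NoQuot t.charpoly)
    (N : ℕ) (hN : 0 < N) (W : Submodule F V) (hW : ∀ w ∈ W, (t ^ N) w ∈ W) :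
    ∀ w ∈ W, t w ∈ W := by
  intro w hw
  by_contra hcon
  obtain ⟨f, hf1, hf2⟩ := Submodule.exists_dual_map_eq_bot_of_notMem hcon inferInstance
  have hfW : ∀ y ∈ W, f y = 0 := fun y hy => by
    have h1 : f y ∈ W.map f := ⟨y, hy, rfl⟩
    rw [hf2] at h1
    exact h1
  obtain ⟨q, hq⟩ := poly_of_pow t hsep hq N hN
  let K := AlgebraicClosure F
  have h4 : ∀ i : ℕ, (t.baseChange K ^ N) ^ i = ((t ^ N) ^ i).baseChange K := by
    intro i
    have h1 : (t ^ N).baseChange K = t.baseChange K ^ N :=
      map_pow (Module.End.baseChangeHom F K V) t N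
    rw [← h1]
    exact (map_pow (Module.End.baseChangeHom F K V) (t ^ N) i).symm
  have hst : ∀ i : ℕ, ((t ^ N) ^ i) w ∈ W := by
    intro i
    induction i with
    | zero => exact hw
    | succ i ih =>
      rw [pow_succ', Module.End.mul_apply]
      exact hW _ ih
  have h5 : (LinearMap.baseChange K f) (t.baseChange K ((1 : K) ⊗ₜ[F] w)) = 0 := by
    rw [hq, aeval_eq_sum_range, LinearMap.sum_apply, map_sum]
    refine Finset.sum_eq_zero fun i _ => ?_
    rw [LinearMap.smul_apply, map_smul, h4, LinearMap.baseChange_tmul, LinearMap.baseChange_tmul,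
      hfW _ (hst i), TensorProduct.tmul_zero, smul_zero]
  rw [LinearMap.baseChange_tmul, LinearMap.baseChange_tmul] at h5
  have h6 : (TensorProduct.rid F K) ((1 : K) ⊗ₜ[F] f (t w)) = 0 := by rw [h5, map_zero]
  rw [TensorProduct.rid_tmul, Algebra.smul_def, mul_one] at h6
  exact hf1 ((map_eq_zero (algebraMap F K)).mp h6)

/-- a nonzero vector is cyclic if the characteristic polynomial is irreducible -/
theorem cyclic_of_irr (t : Module.End F V) (hirr : Irreducible t.charpoly) (w : V) (hw : w ≠ 0)
    (v : V) : ∃ p : F[X], aeval t p w = v := by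
  let n := finrank F V
  have hn : t.charpoly.natDegree = n := LinearMap.charpoly_natDegree t
  let φ : degreeLT F n →ₗ[F] V :=
    ((LinearMap.applyₗ w : Module.End F V →ₗ[F] V) ∘ₗ (aeval t : F[X] →ₐ[F] _).toLinearMap) ∘ₗ
      (degreeLT F n).subtype
  have hφ : ∀ p : degreeLT F n, φ p = aeval t p.1 w := fun p => rfl
  have hinj : Function.Injective φ := by
    rw [injective_iff_map_eq_zero]
    intro p hp
    by_contra hne
    have hp0 : p.1 ≠ 0 := fun h => hne (Subtype.ext h)
    have hdeg : p.1.natDegree < t.charpoly.natDegree := by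
      have h1 := mem_degreeLT.mp p.2
      rw [hn]
      exact (natDegree_lt_iff_degree_lt hp0).mpr h1
    have hcop : IsCoprime t.charpoly p.1 := by
      rw [hirr.coprime_iff_not_dvd]
      intro h1
      exact absurd (natDegree_le_of_dvd h1 hp0) (not_le.mpr hdeg)
    obtain ⟨a, b, hab⟩ := hcop
    have h1 := congrArg (fun r => aeval t r w) hab
    simp only [map_add, map_mul, LinearMap.aeval_self_charpoly, mul_zero, zero_add,
      Module.End.mul_apply, map_one, Module.End.one_apply] at h1
    rw [← hφ, hp, map_zero] at h1
    exact hw h1.symm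
  have hsurj : Function.Surjective φ := by
    have : FiniteDimensional F (degreeLT F n) := (degreeLTEquiv F n).symm.finiteDimensional
    refine (LinearMap.injective_iff_surjective_of_finrank_eq_finrank ?_).mp hinj
    rw [(degreeLTEquiv F n).finrank_eq, Module.finrank_fin_fun]
  obtain ⟨p, hp⟩ := hsurj v
  exact ⟨p.1, hp⟩

/-- what commutes with the element is a polynomial in it -/
theorem poly_of_comm (t : Module.End F V) (hirr : Irreducible t.charpoly) (w : V) (hw : w ≠ 0)
    (c : Module.End F V) (hc : c * t = t * c) : ∃ p : F[X], c = aeval t p := by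
  obtain ⟨p, hp⟩ := cyclic_of_irr t hirr w hw (c w)
  refine ⟨p, LinearMap.ext fun v => ?_⟩
  obtain ⟨q, hq⟩ := cyclic_of_irr t hirr w hw v
  have h1 : Commute c (aeval t q) := Algebra.commute_of_mem_adjoin_singleton_of_commute
    (Polynomial.aeval_mem_adjoin_singleton _ _) hc
  have h2 := LinearMap.congr_fun h1.eq w
  rw [Module.End.mul_apply, Module.End.mul_apply, hq, ← hp] at h2
  rw [h2, ← hq, ← Module.End.mul_apply, ← Module.End.mul_apply, ← map_mul, ← map_mul, mul_comm]

/-- a nonzero polynomial in the element is invertible, the inverse is a polynomial in it -/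
theorem inv_of_poly (t : Module.End F V) (hirr : Irreducible t.charpoly) (p : F[X])
    (hp : aeval t p ≠ 0) : ∃ q : F[X], aeval t q * aeval t p = 1 := by
  have hcop : IsCoprime t.charpoly p := by
    rw [hirr.coprime_iff_not_dvd]
    rintro ⟨r, rfl⟩
    rw [map_mul, LinearMap.aeval_self_charpoly, zero_mul] at hp
    exact hp rfl
  obtain ⟨a, b, hab⟩ := hcop
  have h1 := congrArg (aeval t) hab
  rw [map_add, map_mul, map_mul, LinearMap.aeval_self_charpoly, mul_zero, zero_add, map_one] at h1
  exact ⟨b, h1⟩

/-- simple eigenvalues -/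
theorem eig_unique {L : Type} [Field L] {W : Type} [AddCommGroup W] [Module L W]
    [FiniteDimensional L W] (t : Module.End L W) (hsep : t.charpoly.Separable) (x : L) (e : W)
    (he : t e = x • e) (he0 : e ≠ 0) (y : W) (hy : t y = x • y) : ∃ r : L, y = r • e := by
  have hone : finrank L (Module.End.eigenspace t x) ≤ 1 :=
    le_trans (LinearMap.finrank_eigenspace_le t x) (rootMultiplicity_le_one_of_separable hsep x)
  obtain ⟨v, hv⟩ := (Submodule.finrank_le_one_iff_isPrincipal _).mp hone
  have he' : e ∈ Submodule.span L {v} := hv ▸ Module.End.mem_eigenspace_iff.mpr he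
  have hy' : y ∈ Submodule.span L {v} := hv ▸ Module.End.mem_eigenspace_iff.mpr hy
  obtain ⟨a, rfl⟩ := Submodule.mem_span_singleton.mp he'
  obtain ⟨b, rfl⟩ := Submodule.mem_span_singleton.mp hy'
  have ha : a ≠ 0 := by
    rintro rfl
    exact he0 (zero_smul _ _)
  refine ⟨b * a⁻¹, ?_⟩
  rw [smul_smul, mul_assoc, inv_mul_cancel₀ ha, mul_one]

/-- an algebra with inverses which commutes with a separable element embeds into every field which
contains an eigenvalue -/
theorem dvd_finrank (D : Subalgebra F (Module.End F V))
    (hinv : ∀ c ∈ D, c ≠ 0 → ∃ c' ∈ D, c' * c = 1) (t : Module.End F V)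
    (hsep : t.charpoly.Separable) (hcomm : ∀ c ∈ D, c * t = t * c) (L : Type) [Field L]
    [Algebra F L] [FiniteDimensional F L] (x0 : L) (hroot : aeval x0 t.charpoly = 0) :
    finrank F D ∣ finrank F L := by
  have hchar : (t.baseChange L).charpoly = t.charpoly.map (algebraMap F L) :=
    LinearMap.charpoly_baseChange ..
  have hsepL : (t.baseChange L).charpoly.Separable := by
    rw [hchar]
    exact hsep.map
  have hev : Module.End.HasEigenvalue (t.baseChange L) x0 := by
    rw [Module.End.hasEigenvalue_iff_isRoot_charpoly, hchar, IsRoot.def, eval_map]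
    rw [aeval_def] at hroot
    exact hroot
  obtain ⟨e, he⟩ := hev.exists_hasEigenvector
  have he0 : e ≠ 0 := he.2
  have he1 : t.baseChange L e = x0 • e := Module.End.mem_eigenspace_iff.mp he.1
  have h3 : ∀ x y : Module.End F V, (x * y).baseChange L = x.baseChange L * y.baseChange L :=
    fun x y => map_mul (Module.End.baseChangeHom F L V) x y
  have hex : ∀ c : D, ∃ r : L, c.1.baseChange L e = r • e := by
    intro c
    refine eig_unique (t.baseChange L) hsepL x0 e he1 he0 _ ?_
    have h1 : (t.baseChange L) (c.1.baseChange L e) = (c.1.baseChange L) (t.baseChange L e) := by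
      rw [← Module.End.mul_apply, ← Module.End.mul_apply, ← h3, ← h3, hcomm c.1 c.2]
    rw [h1, he1, map_smul]
  choose r hr using hex
  have hinj : ∀ a b : L, a • e = b • e → a = b := fun a b h => smul_left_injective L he0 h
  let χ : D →ₐ[F] L :=
    { toFun := r
      map_one' := hinj _ _ (by
        rw [← hr]
        show (1 : Module.End F V).baseChange L e = (1 : L) • e
        rw [one_smul]
        exact LinearMap.congr_fun (map_one (Module.End.baseChangeHom F L V)) e)
      map_mul' := fun a b => hinj _ _ (by
        rw [← hr]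
        show (a.1 * b.1).baseChange L e = (r a * r b) • e
        rw [h3, Module.End.mul_apply, hr b, map_smul, hr a, smul_smul, mul_comm])
      map_zero' := hinj _ _ (by
        rw [← hr]
        show (0 : Module.End F V).baseChange L e = (0 : L) • e
        rw [zero_smul, LinearMap.baseChange_zero, LinearMap.zero_apply])
      map_add' := fun a b => hinj _ _ (by
        rw [← hr]
        show (a.1 + b.1).baseChange L e = (r a + r b) • e
        rw [LinearMap.baseChange_add, LinearMap.add_apply, hr a, hr b, add_smul])
      commutes' := fun a => hinj _ _ (by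
        rw [← hr]
        show (algebraMap F (Module.End F V) a).baseChange L e = (algebraMap F L a) • e
        have h4 : algebraMap F (Module.End F V) a = a • (1 : Module.End F V) :=
          Algebra.algebraMap_eq_smul_one a
        have h5 : (1 : Module.End F V).baseChange L = 1 :=
          map_one (Module.End.baseChangeHom F L V)
        rw [h4, LinearMap.baseChange_smul, LinearMap.smul_apply, h5, Module.End.one_apply,
          algebraMap_smul]) }
  have hχ : Function.Injective χ := by
    rw [injective_iff_map_eq_zero]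
    intro c hc
    by_contra hne
    obtain ⟨c', hc', h4⟩ := hinv c.1 c.2 (fun h => hne (Subtype.ext h))
    have h5 : χ (⟨c', hc'⟩ * c) = 1 := by
      have h6 : (⟨c', hc'⟩ * c : D) = 1 := Subtype.ext h4
      rw [h6, map_one]
    rw [map_mul, hc, mul_zero] at h5
    exact zero_ne_one h5
  let M : IntermediateField F L := χ.range.toIntermediateField fun x hx =>
    χ.range.inv_mem_of_algebraic (x := ⟨x, hx⟩) (Algebra.IsAlgebraic.isAlgebraic _)
  have h6 : finrank F D = finrank F M :=
    (AlgEquiv.ofInjective χ hχ).toLinearEquiv.finrank_eq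
  rw [h6]
  exact ⟨_, (Module.finrank_mul_finrank F M L).symm⟩

/-- **Two elements decide.** -/
theorem two_elements [CharZero F] {Γ : Type} [Group Γ] (T : Γ →* Module.End F V) (g g' : Γ)
    (hirr : Irreducible (T g).charpoly) (hq : NoQuot (T g).charpoly)
    (hsep' : (T g').charpoly.Separable) (hq' : NoQuot (T g').charpoly)
    (hgcd : ∀ d : ℕ, (∀ Q : F[X], Irreducible Q → Q ∣ (T g').charpoly → d ∣ Q.natDegree) → d = 1)
    (U : Subgroup Γ) [U.FiniteIndex] :
    (∀ W : Submodule F V, (∀ γ ∈ U, ∀ w ∈ W, T γ w ∈ W) → W = ⊥ ∨ W = ⊤) ∧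
      ∀ c : Module.End F V, (∀ γ ∈ U, c * T γ = T γ * c) → ∃ r : F, c = r • (1 : Module.End F V) := by
  have hsep : (T g).charpoly.Separable := hirr.separable
  obtain ⟨N, hN, -, hgN⟩ := Subgroup.exists_pow_mem_of_index_ne_zero
    (Subgroup.FiniteIndex.index_ne_zero (H := U)) g
  obtain ⟨N', hN', -, hgN'⟩ := Subgroup.exists_pow_mem_of_index_ne_zero
    (Subgroup.FiniteIndex.index_ne_zero (H := U)) g'
  refine ⟨fun W hW => ?_, fun c hc => ?_⟩
  · by_cases hW0 : W = ⊥
    · exact Or.inl hW0
    · right
      obtain ⟨w, hw, hw0⟩ := W.exists_mem_ne_zero_of_ne_bot hW0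
      have h1 : ∀ w ∈ W, T g w ∈ W := stable_of_pow (T g) hsep hq N hN W (by
        rw [← map_pow]
        exact hW _ hgN)
      rw [eq_top_iff]
      intro v _
      obtain ⟨p, hp⟩ := cyclic_of_irr (T g) hirr w hw0 v
      rw [← hp, aeval_eq_sum_range, LinearMap.sum_apply]
      refine Submodule.sum_mem _ fun i hi => ?_
      clear hi
      rw [LinearMap.smul_apply]
      refine Submodule.smul_mem _ _ ?_
      induction i with
      | zero => exact hw
      | succ i ih =>
        rw [pow_succ', Module.End.mul_apply]
        exact h1 _ ih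
  · let D : Subalgebra F (Module.End F V) := Subalgebra.centralizer F (T '' (U : Set Γ))
    have hD : ∀ c, c ∈ D ↔ ∀ γ ∈ U, c * T γ = T γ * c := by
      intro c
      rw [Subalgebra.mem_centralizer_iff]
      constructor
      · intro h γ hγ
        exact (h _ ⟨γ, hγ, rfl⟩).symm
      · rintro h _ ⟨γ, hγ, rfl⟩
        exact (h γ hγ).symm
    have hne : ∃ w : V, w ≠ 0 := by
      by_contra hcon
      push Not at hcon
      have h1 : finrank F V = 0 := by
        have : Subsingleton V := ⟨fun a b => by rw [hcon a, hcon b]⟩
        exact Module.finrank_zero_of_subsingleton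
      have h2 : (T g).charpoly.natDegree = 0 := by rw [LinearMap.charpoly_natDegree, h1]
      exact absurd hirr.natDegree_pos (by omega)
    obtain ⟨w, hw⟩ := hne
    have hinv : ∀ c ∈ D, c ≠ 0 → ∃ c' ∈ D, c' * c = 1 := by
      intro c hc hc0
      have h1 : c * T g = T g * c := comm_of_pow (T g) hsep hq N hN c (by
        rw [← map_pow]
        exact (hD c).mp hc _ hgN)
      obtain ⟨p, rfl⟩ := poly_of_comm (T g) hirr w hw c h1
      obtain ⟨q, hq⟩ := inv_of_poly (T g) hirr p hc0
      have hq' : aeval (T g) p * aeval (T g) q = 1 := by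
        rw [← map_mul, mul_comm, map_mul, hq]
      refine ⟨aeval (T g) q, (hD _).mpr fun γ hγ => ?_, hq⟩
      calc aeval (T g) q * T γ = aeval (T g) q * T γ * (aeval (T g) p * aeval (T g) q) := by
            rw [hq', mul_one]
        _ = aeval (T g) q * (T γ * aeval (T g) p) * aeval (T g) q := by simp only [mul_assoc]
        _ = aeval (T g) q * (aeval (T g) p * T γ) * aeval (T g) q := by
            rw [(hD _).mp hc γ hγ]
        _ = (aeval (T g) q * aeval (T g) p) * (T γ * aeval (T g) q) := by simp only [mul_assoc]
        _ = T γ * aeval (T g) q := by rw [hq, one_mul]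
    have hcomm : ∀ c ∈ D, c * T g' = T g' * c := fun c hc =>
      comm_of_pow (T g') hsep' hq' N' hN' c (by
        rw [← map_pow]
        exact (hD c).mp hc _ hgN')
    have hone : finrank F D = 1 := by
      refine hgcd _ fun Q hQ hdvd => ?_
      have : Fact (Irreducible Q) := ⟨hQ⟩
      have : FiniteDimensional F (AdjoinRoot Q) := (AdjoinRoot.powerBasis hQ.ne_zero).finite
      have h1 := dvd_finrank D hinv (T g') hsep' hcomm (AdjoinRoot Q) (AdjoinRoot.root Q) (by
        obtain ⟨R, hR⟩ := hdvd
        rw [hR, map_mul, AdjoinRoot.aeval_eq, AdjoinRoot.mk_self, zero_mul])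
      rwa [(AdjoinRoot.powerBasis hQ.ne_zero).finrank, AdjoinRoot.powerBasis_dim] at h1
    have hnt : Nontrivial V := ⟨⟨w, 0, hw⟩⟩
    have hbot : D = ⊥ := Subalgebra.eq_bot_of_finrank_one hone
    have hcD : c ∈ (⊥ : Subalgebra F (Module.End F V)) := hbot ▸ (hD c).mpr hc
    obtain ⟨r, hr⟩ := Algebra.mem_bot.mp hcD
    exact ⟨r, by rw [← hr, Algebra.algebraMap_eq_smul_one]⟩

end Pool.Agent.Lib.MP_640417_ag.Two
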